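import Pool.Agent.Helper15.PE.St

set_option autoImplicit false
open Classical

namespace Pool.Agent.Helper3.PE

open Pool.Agent.Helper15.PE
open Pool.Agent.Helper14.J1 (IsLE desN)

theorem chain (f h : ℕ → ℝ) (t : ℕ)
    (hstep : ∀ u, u < t → f (u + 1) ≤ f u * Real.exp (-h u)) :
    ∀ m, m ≤ t → f m ≤ f 0 * Real.exp (-∑ u ∈ Finset.range m, h u) := by
  intro m
  induction m with
  | zero => intro _; simp
  | succ m ih =>
    intro hm
    have h1 := ih (by omega)
    have h2 := hstep m (by omega)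
    rw [Finset.sum_range_succ, neg_add, Real.exp_add, ← mul_assoc]
    exact h2.trans (mul_le_mul_of_nonneg_right h1 (Real.exp_pos _).le)

theorem sum_bd (h : ℕ → ℝ) (h0 : ∀ u, 0 ≤ h u) (hm : ∀ u v, u ≤ v → h u ≤ h v) (s t : ℕ)
    (hst : 2 * s ≤ t) : (s : ℝ) * h s ≤ ∑ u ∈ Finset.range t, h u := by
  have h1 : ∑ u ∈ Finset.Ico s (2 * s), h s ≤ ∑ u ∈ Finset.Ico s (2 * s), h u :=
    Finset.sum_le_sum fun u hu => hm _ _ (Finset.mem_Ico.1 hu).1
  have h2 : ∑ u ∈ Finset.Ico s (2 * s), h u ≤ ∑ u ∈ Finset.range t, h u := by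
    refine Finset.sum_le_sum_of_subset_of_nonneg ?_ fun u _ _ => h0 u
    intro u hu
    have := (Finset.mem_Ico.1 hu).2
    exact Finset.mem_range.2 (by omega)
  have h3 : ∑ u ∈ Finset.Ico s (2 * s), h s = (s : ℝ) * h s := by
    rw [Finset.sum_const, Nat.card_Ico, nsmul_eq_mul]
    congr 2
    omega
  rw [← h3]
  exact h1.trans h2

theorem gg_pos (N : ℕ) (x : ℝ) (hx : 0 < x) (l : ℕ) : 0 < gg N x l := by
  unfold gg
  have : 0 < (l + N).choose N := Nat.choose_pos (by omega)
  positivity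

theorem gg_rec (N : ℕ) (x : ℝ) (l : ℕ) :
    ((l : ℝ) + 1) * gg N x (l + 1) = x * ((N : ℝ) + 1 + l) * gg N x l := by
  unfold gg
  have h := Nat.choose_mul_succ_eq (l + N) N
  have h1 : l + N + 1 - N = l + 1 := by omega
  rw [h1] at h
  have h2 : (((l + N).choose N : ℕ) : ℝ) * ((l : ℝ) + N + 1)
      = (((l + N + 1).choose N : ℕ) : ℝ) * ((l : ℝ) + 1) := by
    exact_mod_cast h
  have h3 : l + 1 + N = l + N + 1 := by omega
  rw [h3, pow_succ]
  linear_combination (-(x ^ l * x)) * h2

theorem hDecay : StDecay := by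
  intro N x hx hx1
  have hx1' : 0 < 1 - x := by linarith
  have hex : ∃ l : ℕ, x * ((N : ℝ) + 1 + l) ≤ (l : ℝ) + 1 := by
    obtain ⟨l, hl⟩ := exists_nat_ge (x * N / (1 - x))
    refine ⟨l, ?_⟩
    rw [div_le_iff₀ hx1'] at hl
    nlinarith
  classical
  obtain ⟨l0, hl0, hmin⟩ : ∃ l0 : ℕ, x * ((N : ℝ) + 1 + l0) ≤ (l0 : ℝ) + 1 ∧
      (0 < l0 → (l0 : ℝ) < x * ((N : ℝ) + l0)) := by
    refine ⟨Nat.find hex, Nat.find_spec hex, fun hpos => ?_⟩
    obtain ⟨m, hm⟩ : ∃ m, Nat.find hex = m + 1 := ⟨Nat.find hex - 1, by omega⟩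
    have h1 := Nat.find_min hex (m := m) (by omega)
    rw [hm]
    push_cast at h1 ⊢
    push Not at h1
    linarith
  have hA : (l0 : ℝ) * (1 - x) ≤ x * N := by
    rcases Nat.eq_zero_or_pos l0 with h | h
    · rw [h]
      have : 0 ≤ x * (N : ℝ) := by positivity
      simpa using this
    · have := hmin h
      nlinarith
  refine ⟨l0, hA, fun s t hst => ?_⟩
  obtain ⟨h, hh⟩ : ∃ h : ℕ → ℝ, h = fun u : ℕ => (1 - x) * u / ((l0 : ℝ) + 1 + u) := ⟨_, rfl⟩
  have h0 : ∀ u, 0 ≤ h u := by
    intro u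
    rw [hh]
    positivity
  have hmono : ∀ u v, u ≤ v → h u ≤ h v := by
    intro u v huv
    have huv' : (u : ℝ) ≤ v := by exact_mod_cast huv
    rw [hh]
    simp only
    rw [div_le_div_iff₀ (by positivity) (by positivity)]
    have h1 : (0 : ℝ) ≤ l0 := Nat.cast_nonneg _
    nlinarith [mul_nonneg hx1'.le (mul_nonneg (sub_nonneg.2 huv') (by linarith : (0:ℝ) ≤ l0 + 1))]
  have hs : (s : ℝ) * h s = (1 - x) * s ^ 2 / ((l0 : ℝ) + 1 + s) := by
    rw [hh]
    ring
  have key : ∀ (f : ℕ → ℝ), 0 ≤ f 0 → (∀ u, u < t → f (u + 1) ≤ f u * Real.exp (-h u)) →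
      f t ≤ f 0 * Real.exp (-((1 - x) * s ^ 2 / (l0 + 1 + s))) := by
    intro f hf0 hf
    refine (chain f h t hf t le_rfl).trans (mul_le_mul_of_nonneg_left ?_ hf0)
    rw [Real.exp_le_exp, neg_le_neg_iff, ← hs]
    exact sum_bd h h0 hmono s t hst
  constructor
  · have := key (fun u => gg N x (l0 + u)) (gg_pos N x hx _).le ?_
    · simpa using this
    · intro u _
      have hr := gg_rec N x (l0 + u)
      push_cast at hr
      have hp := gg_pos N x hx (l0 + u)
      have hd : (0 : ℝ) < (l0 : ℝ) + 1 + u := by positivity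
      have e1 : 1 - h u ≤ Real.exp (-h u) := by
        have := Real.add_one_le_exp (-h u)
        linarith
      have e2 : gg N x (l0 + u + 1) ≤ gg N x (l0 + u) * (1 - h u) := by
        have e3 : (1 - h u) * ((l0 : ℝ) + 1 + u) = (l0 : ℝ) + 1 + x * u := by
          rw [hh]
          field_simp
          ring
        have e4 : ((l0 : ℝ) + 1 + u) * gg N x (l0 + u + 1)
            ≤ ((l0 : ℝ) + 1 + u) * (gg N x (l0 + u) * (1 - h u)) := by
          have e5 : ((l0 : ℝ) + 1 + u) * (gg N x (l0 + u) * (1 - h u))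
              = ((l0 : ℝ) + 1 + x * u) * gg N x (l0 + u) := by
            rw [← e3]; ring
          have e6 : ((l0 : ℝ) + 1 + u) * gg N x (l0 + u + 1)
              = (x * ((N : ℝ) + 1 + l0) + x * u) * gg N x (l0 + u) := by
            linear_combination hr
          rw [e5, e6]
          exact mul_le_mul_of_nonneg_right (by linarith) hp.le
        exact le_of_mul_le_mul_left e4 hd
      exact e2.trans (mul_le_mul_of_nonneg_left e1 hp.le)
  · intro htl
    have := key (fun u => gg N x (l0 - u)) (gg_pos N x hx _).le ?_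
    · simpa using this
    · intro u hu
      obtain ⟨l, hl⟩ : ∃ l, l0 = l + 1 + u := ⟨l0 - 1 - u, by omega⟩
      have a1 : l0 - (u + 1) = l := by omega
      have a2 : l0 - u = l + 1 := by omega
      rw [a1, a2]
      have hr := gg_rec N x l
      have hp := gg_pos N x hx l
      have hp1 := gg_pos N x hx (l + 1)
      have hm := hmin (by omega)
      have hl' : (l0 : ℝ) = l + 1 + u := by rw [hl]; push_cast; ring
      have hu0 : (0 : ℝ) ≤ u := Nat.cast_nonneg _
      have hl0' : (0 : ℝ) ≤ l := Nat.cast_nonneg _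
      have e1 : 1 - h u ≤ Real.exp (-h u) := by
        have := Real.add_one_le_exp (-h u)
        linarith
      -- `(l0 - x u) gg l ≤ (l0 - u) gg (l + 1)`
      have b1 : ((l0 : ℝ) - x * u) * gg N x l ≤ ((l0 : ℝ) - u) * gg N x (l + 1) := by
        have b2 : ((l0 : ℝ) - u) * gg N x (l + 1) = x * ((N : ℝ) + 1 + l) * gg N x l := by
          rw [← hr, hl']
          ring
        rw [b2]
        refine mul_le_mul_of_nonneg_right ?_ hp.le
        have : x * ((N : ℝ) + 1 + l) = x * (N + l0) - x * u := by rw [hl']; ring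
        rw [this]
        linarith
      have hxu : x * u ≤ u := by nlinarith
      have hd : 0 < (l0 : ℝ) - x * u := by
        rw [hl']
        linarith
      have b3 : ((l0 : ℝ) - u) ≤ ((l0 : ℝ) - x * u) * (1 - h u) := by
        have hD : (0 : ℝ) < (l0 : ℝ) + 1 + u := by positivity
        have b4 : h u * ((l0 : ℝ) + 1 + u) = (1 - x) * u := by
          rw [hh]
          field_simp
        have b5 : h u * ((l0 : ℝ) - x * u) ≤ h u * ((l0 : ℝ) + 1 + u) := by
          refine mul_le_mul_of_nonneg_left ?_ (h0 u)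
          have : 0 ≤ x * u := by positivity
          linarith
        rw [b4] at b5
        nlinarith
      have b6 : ((l0 : ℝ) - x * u) * gg N x l
          ≤ ((l0 : ℝ) - x * u) * (gg N x (l + 1) * (1 - h u)) := by
        have := mul_le_mul_of_nonneg_right b3 hp1.le
        nlinarith
      have b7 := le_of_mul_le_mul_left b6 hd
      exact b7.trans (mul_le_mul_of_nonneg_left e1 hp1.le)

end Pool.Agent.Helper3.PE
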